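import Pool.Agent.R900.FG.Alt

/-!
# Finite generation of étale motivic cohomology: four equivalent conjectures

`H n i X` is the group `H^i(X_et, ℤ^c(n))` of an arithmetic scheme `X` (separated and of finite type over `ℤ`)
in the weight `n < 0`; for regular `X` of dimension `d` it is `H^(2 d + i)(X_et, ℤ(d - n))`. A Jacobian is the
relative Jacobian `J = Pic^0(C / V)`, an abelian scheme over `V`, of a smooth projective curve `C → V` with
geometrically connected fibres and with a section, over a regular, affine, connected arithmetic
scheme `V`. `Nice` is a class of regular proper schemes for which the theorem of de Jong on alterations
holds (`HasAlterations`), for example the smooth projective varieties over finite fields together with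
the regular projective schemes with strictly semistable reduction over the rings of integers of
number fields.

**Theorem.** For every weight `n < 0` the following are equivalent (`FourConditions`):

1. Q1: `H^i(X_et, ℤ^c(n))` is finitely generated for `i ≤ -2 n + 1` and all proper regular `X`;
2. Q1 for all nice schemes;
3. `H^i(X_et, ℤ^c(n))` is finitely generated for all arithmetic schemes `X` and all `i`;
4. `H^i(J_et, ℤ^c(n))` is finitely generated for all Jacobians `J` and all `i`.

Moreover the conditions 2 and 3 are equivalent for the schemes of dimension at most `d`
(`NiceSuffice`), and the condition 3 for the schemes of dimension at most `d` follows from the condition 4 in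
the weights `m ≤ n` for the Jacobians over bases of dimension less than `d` (`Bounded`).

The idea. The function field of `X` is the function field of a curve over a smaller field. After a finite
extension this curve is an open part of the generic fibre of a curve `C → V` as above. For large `N` the
symmetric power `P = Sym^N(C / V)` is a projective bundle over `J`. If `s` is the section then
`iota : C → P`, `x ↦ x + (N - 1) s`, and the correspondence `rho` of all pairs `(D, x)`, `x` in `D`, satisfy
`rho ∘ iota = 1 + (N - 1) s_* π_*` with the projection `π : C → V`. So the groups of `C` are generated by the
images of those of `P` and `V`. For a finite covering or alteration `f` of degree `m` of regular schemes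
`f_* f^* = m`, and the elements of order dividing `m` form a finite group, as the groups with finite
coefficients are finite in the weights `n < 0`. The rest is an induction with the localization sequences.
-/

set_option autoImplicit false

namespace Pool.Agent.Results.MP_c1eb4d_ag.AbelianSchemes

open Pool.Agent.R900.FG

/-- The equivalence of Q1 for all proper regular schemes, Q1 for all nice schemes, the finite generation
for all arithmetic schemes, and the finite generation for all Jacobians of curves, in each weight
`n < 0`, with bounds for the dimensions. -/
theorem result {S : Type} {G : Schemes S} {T : Cohomology S} {Regular Nice : S → Prop}
    (hG : IsSchemes G) (hT : IsCohomology G T) (hA : HasAlterations G T Regular Nice) :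
    FourConditions G T Regular Nice ∧ NiceSuffice G T Nice ∧ Bounded G T :=
  ⟨fourConditions hG hT hA, niceSuffice hG hT hA, bounded hG hT⟩

end Pool.Agent.Results.MP_c1eb4d_ag.AbelianSchemes
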