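import Pool.Agent.R324.BTopN

/-!
# Finite generation in the weights `n < 0` for blow-ups, one centre and one dimension at a time

Let `S` be a class of regular connected schemes proper over `ℤ`, flat or not, for example all those
which are projective over `ℤ`. Q1 for `X` in the weight `n < 0` says that `H^i(X_et, ℤ^c(n))` is finitely
generated for `i ≤ -2n + 1`. We assume the projective bundle formula and the blow-up formula and the
finite generation for `Spec ℤ` (known). A tower is a scheme which is obtained from a projective space
over `ℤ` by finitely many blow-ups along schemes in `S`.

**Theorem.** (1) Let `B` be the blow-up of `X` along `W` of codimension `c + 1`. Q1 for `B` in the weight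
`n` is equivalent to Q1 for `X` in the weight `n` and Q1 for `W` in the weights `n - a`, `0 < a ≤ c`. If
`X` is a projective space over `ℤ`, Q1 for `B` in the weight `n` is equivalent to Q1 for `W` in the
weights `n - a`, `0 < a ≤ c`.

(2) For one scheme `W` in `S` the following are equivalent: Q1 for `W` in all weights `≤ -2`; Q1 in the
weight `-1` for all blow-ups of projective spaces over `ℤ` along `W`; for every `K` there is a blow-up `B`
of a projective space over `ℤ` along `W`, of dimension `≥ K`, such that `H^i(B_et, ℤ^c(-1))` is finitely
generated for `3 - K ≤ i ≤ 3`.

(3) For every `N` and `n < 0`: Q1 in the weight `n` for all towers of dimension `N` is equivalent to Q1 in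
the weights `n - a`, `0 < a ≤ c`, for all centres `W`, of any codimension `c + 1`, of blow-ups of towers
of dimension `N`.

(4) Using the known finite generation for schemes of dimension `≤ 1`: Q1 holds for all towers of
dimension `≤ 3` in all weights `n < 0`, and for every `n < 0` Q1 in the weight `n` for all towers of
dimension `4` is equivalent to Q1 in the weight `n - 1` for all their centres of dimension `2`.
-/

set_option autoImplicit false

open Pool.Agent.R387.EM Pool.Agent.R387.EM.Neg Pool.Agent.R324.BTN

namespace Pool.Agent.Results.MP_c1eb4d_ag.BlowUpsInEachDimension

theorem result {S : VarClass} {D : Data S} (h : IsData D) :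
    (OneBlowUp D ∧ OneCentre D) ∧ (∀ W, OneScheme D W) ∧
      (∀ N w : ℕ, 1 ≤ w → InDimension D N w) ∧ (Curves D → Threefolds D ∧ Fourfolds D) :=
  ⟨⟨oneBlowUp h, oneCentre h⟩, oneScheme h, fun N _ hw => inDimension h N hw,
    fun H => ⟨threefolds h H, fourfolds h H⟩⟩

end Pool.Agent.Results.MP_c1eb4d_ag.BlowUpsInEachDimension
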