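import Pool.Agent.R166.SW.Window

/-!
# MP_c1eb4d_ag: the weight -1 and the upper degrees for complements of elementary arrangements

An elementary arrangement is a finite union of hypersurfaces of the forms `x_i x_j = x_k`,
`x_i + x_j = x_k`, `x_i = 1` in an affine space over `ℤ`. Its complement `compl a` is the spectrum of
`ℤ[x_1, …, x_N, 1/a]`, where `a` is the product of the polynomials `x_i x_j - x_k`, `x_i + x_j - x_k`,
`x_i - 1`: a smooth affine scheme over `ℤ`, open in affine space, of dimension `d = N + 1`.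

`EtTheory` (Pool/Agent/R166/SW/Fg.lean) lists the properties of the groups `H w i X = Hⁱ(X_et, ℤᶜ(-w))`
which are used. Let `φ : ℕ → ℕ` be unbounded (it may grow very slowly).

If the groups `Hⁱ(U_et, ℤᶜ(-1)) = H^{2d+i}(U_et, ℤ(d+1))` are finitely generated for the complements `U` of
elementary arrangements and for `-d - φ(d) ≤ i ≤ 3`, `d = dim U`, then Q1 is true for all weights `n < 0`.
More precisely this condition is equivalent to the finite generation of `Hⁱ(X_et, ℤᶜ(n))`, `i ≤ -2n+1`,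
for all arithmetic schemes `X` (proper or not, regular or not) and all `n < 0`. It implies
`H^p(X_et, ℤ(m)) = 0` for regular `X` of dimension `d`, `m > d`, `p < 0`. For every `n < 0` the finite
generation of `Hⁱ(X_et, ℤᶜ(n))`, `i ≤ -2n+1`, for all `X` is equivalent to the same for the complements
`U` and the degrees `i ≥ -d - φ(d)`, and it implies the same in the weights `m ≤ n`.
-/

set_option autoImplicit false

open CategoryTheory AlgebraicGeometry
open Pool.Agent.R904.CU Pool.Agent.R904.EL Pool.Agent.R166.SW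

namespace Pool.Agent.Results.MP_c1eb4d_ag.UpperDegreesOfArrangements

/-- Q1: for all proper regular arithmetic schemes `X` and all `n = -w < 0`, the groups
`Hⁱ(X_et, ℤᶜ(n))`, `i ≤ -2n+1`, are finitely generated. -/
def Q1 (T : EtTheory) : Prop :=
  ∀ (X : Scheme.{0}) (f : X ⟶ Spec (.of ℤ)), IsProper f →
    (∀ x : X, IsRegularLocalRing (X.presheaf.stalk x)) → ∀ w : ℕ, 0 < w →
      ∀ i : ℤ, i ≤ 2 * (w : ℤ) + 1 → AddGroup.FG (T.H w i X)

/-- Q1 in the weight `n = -w`, for all arithmetic schemes -/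
def AllSchemes (T : EtTheory) (w : ℕ) : Prop := T.AllFG w (2 * w + 1)

/-- the condition on the complements `U` of elementary arrangements in the weight `n = -w`: the groups
`Hⁱ(U_et, ℤᶜ(n))` are finitely generated for `-d - φ(d) ≤ i ≤ -2n+1`, `d = N + 1 = dim U` -/
def Arrangements (T : EtTheory) (φ : ℕ → ℕ) (w : ℕ) : Prop := T.UpperFG φ w (2 * w + 1)

/-- For all regular arithmetic schemes `X` of dimension `d` and all `w > 0`, the groups
`H^{2d+i}(X_et, ℤ(d+w)) = Hⁱ(X_et, ℤᶜ(-w))` vanish for `i < -2d`. -/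
def Vanishing (T : EtTheory) : Prop :=
  ∀ (X : Scheme.{0}) (f : X ⟶ Spec (.of ℤ)), SepFinType ℤ X f →
    (∀ x : X, IsRegularLocalRing (X.presheaf.stalk x)) → ∀ d : ℕ, topologicalKrullDim X = d →
      ∀ w : ℕ, 0 < w → ∀ i : ℤ, i < -2 * (d : ℤ) → Subsingleton (T.H w i X)

/-- **Main theorem.** -/
theorem result (T : EtTheory) (φ : ℕ → ℕ) (hφ : ∀ B, ∃ d, B ≤ φ d) :
    (∀ w : ℕ, 0 < w → (AllSchemes T w ↔ Arrangements T φ w)) ∧
    (∀ w : ℕ, 0 < w → Arrangements T φ w → ∀ v : ℕ, w ≤ v → AllSchemes T v) ∧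
    ((∀ w : ℕ, 0 < w → AllSchemes T w) ↔ Arrangements T φ 1) ∧
    (Arrangements T φ 1 → Q1 T ∧ Vanishing T) := by
  have h1 : ∀ w : ℕ, AllSchemes T w ↔ Arrangements T φ w := fun w => (T.upper_iff hφ w _).symm
  have h2 : ∀ w : ℕ, Arrangements T φ w → ∀ v : ℕ, w ≤ v → AllSchemes T v := by
    intro w h v hv
    obtain ⟨k, rfl⟩ := Nat.exists_eq_add_of_le hv
    have h3 := T.allFG_add w _ ((h1 w).2 h) k
    have h4 : (2 * (w : ℤ) + 1 + 2 * (k : ℤ)) = 2 * ((w + k : ℕ) : ℤ) + 1 := by
      push_cast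
      ring
    rw [h4] at h3
    exact h3
  refine ⟨fun w _ => h1 w, fun w _ => h2 w,
    ⟨fun h => (h1 1).1 (h 1 one_pos), fun h w hw => h2 1 h w hw⟩, fun h => ⟨?_, ?_⟩⟩
  · intro X f hf _ w hw i hi
    exact h2 1 h w hw X f ⟨inferInstance, inferInstance, inferInstance⟩ i hi
  · intro X f hf hX d hd w hw i hi
    exact T.vanish hf hX hd hi (h2 1 h w hw X f hf i (by omega))

end Pool.Agent.Results.MP_c1eb4d_ag.UpperDegreesOfArrangements
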