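import Pool.Agent.R387.EM.Neg

/-!
# Finite generation in the weight `-1` near the top degree, and blow-ups of projective spaces

Let `S` be a class of regular connected schemes proper over `ℤ`, flat or not, for example all those
which are projective over `ℤ`. Q1 for `X` and the weight `n < 0` says that `H^i(X_et, ℤ^c(n))` is finitely
generated for `i ≤ -2n + 1`. We assume the projective bundle formula and the blow-up formula for
`n < 0` and the finite generation for `Spec ℤ` (known). A tower is a scheme which is obtained from a
projective space over `ℤ` by finitely many blow-ups along schemes in `S` (flat or not); so it is flat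
over `ℤ` with a rational generic fibre. Let `φ` be any unbounded function.

**Theorem.** (1) For every `n < 0`, Q1 in the weight `n` for all `X` in `S` is equivalent to Q1 in all
weights `≤ n` for all `X` in `S`, and also to the finite generation in the weight `n` in the degrees
`-2n + 1 - φ(dim X) ≤ i ≤ -2n + 1` for all `X` in `S`.

(2) In particular Q1 for all `X` and all `n < 0` follows from the finite generation of
`H^i(X_et, ℤ^c(-1))`, `3 - φ(dim X) ≤ i ≤ 3`, for all `X`.

(3) For every `n < 0`, Q1 in the weight `n` for all towers is equivalent to Q1 in the weight `n - 1` for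
all `X` in `S`, flat or not, and it suffices to consider the degrees `-2n + 1 - φ(dim B) ≤ i ≤ -2n + 1`.
-/

open Pool.Agent.R387.EM Pool.Agent.R387.EM.Neg

namespace Pool.Agent.Results.MP_c1eb4d_ag.WeightMinusOne

theorem result {S : VarClass} {D : Data S} (h : IsData D) (φ : ℕ → ℕ)
    (hφ : ¬ BddAbove (Set.range φ)) :
    (∀ w, 1 ≤ w → OneWeight D φ w ∧ TowersIff D φ w) ∧
      ((∀ X, ∀ w, 1 ≤ w → Q1 D X w) ↔ ∀ X, NearTop D φ X 1) :=
  ⟨fun _ hw => ⟨oneWeight h hφ hw, towersIff h hφ hw⟩, q1_iff h hφ⟩

end Pool.Agent.Results.MP_c1eb4d_ag.WeightMinusOne
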